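import Pool.Agent.H.MP_33d18a_mp.C

namespace Pool.Agent.Results.MP_33d18a_mp.No

open Pool.Agent.H.MP_d87c46_gt Pool.Agent.H.MP_33d18a_mp

theorem result : ∃ a b : ℝ, (∃ t r : ℝ, 0 < a * t ^ 2 + b * r ^ 2) ∧
    ∀ (ψ P F : ℝ → ℝ) (m : ℝ × ℝ → ℝ) (U : Set (ℝ × ℝ)), Adm ψ P F m U →
    ∀ W : Set V, IsOpen W → W.Nonempty →
      (∀ x ∈ W, 0 < a * x 0 ^ 2 + b * x 1 ^ 2 ∧ x 1 ≠ 0 ∧ Real.sin (x 2) ≠ 0) →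
    ∀ Φ : V → V, ContDiffOn ℝ (⊤ : ℕ∞) Φ W → (∀ x ∈ W, (Φ x 0, Φ x 1) ∈ U) →
      ¬ ∀ x ∈ W, ∀ c d, ∑ i, ∑ j,
        gVS ψ P F m (Φ x) i j * pd c (fun z => Φ z i) x * pd d (fun z => Φ z j) x
          = gSO a b x c d := by
  refine ⟨0, 1, ⟨0, 1, by norm_num⟩, ?_⟩
  rintro ψ P F m U hA W hW ⟨p, hp⟩ hr Φ hΦ hU h
  exact noiso ψ P F m U hA W hW p hp Φ hΦ hU (hr p hp).2.1 (hr p hp).2.2 h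

end Pool.Agent.Results.MP_33d18a_mp.No
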